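import Pool.Agent.LE.StmtsH
import Pool.Agent.Helper28_LYM.VTZ

/-!
# LCH, row AVF: lower bound of the mean of the spectral measure in a cube
-/

set_option autoImplicit false
set_option linter.unusedSectionVars false

open scoped Topology ENNReal BigOperators NNReal
open MeasureTheory Filter ProbabilityTheory

noncomputable section

namespace Pool.Agent.LE.CH.H90

open Pool.Agent.Anderson hiding box mem_box card_box
open Pool.Agent.Loc Pool.Agent.Mob Pool.Agent.Helper54.Bal Pool.Agent.LY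
  Pool.Agent.LE.H54 Pool.Agent.LE.H54W

variable {d : ℕ}

/-- the density of `gl σ` on `[-R, R]` is at least this -/
def rmin (σ R : ℝ) : ℝ := (√(2 * Real.pi * σ ^ 2))⁻¹ * Real.exp (-R ^ 2 / (2 * σ ^ 2))

theorem rmin_pos {σ : ℝ} (hσ : σ ≠ 0) (R : ℝ) : 0 < rmin σ R := by
  unfold rmin
  have : 0 < σ ^ 2 := by positivity
  positivity

theorem le_gl_Icc {σ : ℝ} (hσ : σ ≠ 0) {R a b : ℝ} (ha : -R ≤ a) (hb : b ≤ R) :
    ENNReal.ofReal (rmin σ R * (b - a)) ≤ gl σ (Set.Icc a b) := by
  have h1 : gl σ = gaussianReal 0 (.mk (σ ^ 2) (sq_nonneg _)) := by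
    unfold gl γ1
    rw [gaussianReal_map_const_mul, mul_zero, mul_one]
  have hv : (NNReal.mk (σ ^ 2) (sq_nonneg _)) ≠ 0 := by
    intro h
    have : σ ^ 2 = 0 := congrArg NNReal.toReal h
    exact hσ (by simpa using this)
  rw [h1, gaussianReal_apply _ hv, ENNReal.ofReal_mul (rmin_pos hσ R).le, ← Real.volume_Icc,
    ← setLIntegral_const]
  refine setLIntegral_mono' measurableSet_Icc fun x hx => ?_
  unfold gaussianPDF
  apply ENNReal.ofReal_le_ofReal
  unfold gaussianPDFReal rmin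
  change (√(2 * Real.pi * σ ^ 2))⁻¹ * Real.exp (-R ^ 2 / (2 * σ ^ 2)) ≤
    (√(2 * Real.pi * σ ^ 2))⁻¹ * Real.exp (-(x - 0) ^ 2 / (2 * σ ^ 2))
  have hs : 0 < σ ^ 2 := by positivity
  have h2 : (x - 0) ^ 2 ≤ R ^ 2 := by
    rw [sub_zero]
    exact sq_le_sq' (by linarith [hx.1]) (by linarith [hx.2])
  refine mul_le_mul_of_nonneg_left ?_ (by positivity)
  apply Real.exp_le_exp.2
  rw [neg_div, neg_div]
  exact neg_le_neg (div_le_div_of_nonneg_right h2 (by positivity))

/-- the mean over one value of the potential -/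
theorem one_site {σ : ℝ} (hσ : σ ≠ 0) {M : ℝ} {a : ℂ} (ha : 0 < a.im) (haM : ‖a‖ ≤ M) :
    ENNReal.ofReal (rmin σ (2 * M)) ≤
      ∫⁻ v : ℝ, ENNReal.ofReal (((v : ℂ) - a)⁻¹).im ∂(gl σ) := by
  set α := a.re
  set β := a.im
  have hβM : β ≤ M := (le_abs_self _).trans ((Complex.abs_im_le_norm a).trans haM)
  have hαM : |α| ≤ M := (Complex.abs_re_le_norm a).trans haM
  have hα := abs_le.1 hαM
  have h1 : ∀ v ∈ Set.Icc (α - β) (α + β), ENNReal.ofReal (1 / (2 * β)) ≤
      ENNReal.ofReal (((v : ℂ) - a)⁻¹).im := by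
    intro v hv
    apply ENNReal.ofReal_le_ofReal
    rw [Complex.inv_im]
    have e1 : ((v : ℂ) - a).im = -β := by simp [β]
    have e2 : Complex.normSq ((v : ℂ) - a) = (v - α) ^ 2 + β ^ 2 := by
      rw [Complex.normSq_apply]
      simp only [Complex.sub_re, Complex.ofReal_re, Complex.sub_im, Complex.ofReal_im]
      ring
    rw [e1, e2, neg_neg]
    have h3 : (v - α) ^ 2 ≤ β ^ 2 := sq_le_sq' (by linarith [hv.1]) (by linarith [hv.2])
    rw [div_le_div_iff₀ (by positivity) (by positivity)]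
    nlinarith
  calc ENNReal.ofReal (rmin σ (2 * M))
      = ENNReal.ofReal (1 / (2 * β)) * ENNReal.ofReal (rmin σ (2 * M) * ((α + β) - (α - β))) := by
        rw [← ENNReal.ofReal_mul (by positivity)]
        congr 1
        field_simp
        ring
    _ ≤ ENNReal.ofReal (1 / (2 * β)) * gl σ (Set.Icc (α - β) (α + β)) := by
        gcongr
        exact le_gl_Icc hσ (by linarith) (by linarith)
    _ = ∫⁻ _v in Set.Icc (α - β) (α + β), ENNReal.ofReal (1 / (2 * β)) ∂(gl σ) := by
        rw [setLIntegral_const]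
    _ ≤ ∫⁻ v in Set.Icc (α - β) (α + β), ENNReal.ofReal (((v : ℂ) - a)⁻¹).im ∂(gl σ) :=
        setLIntegral_mono' measurableSet_Icc h1
    _ ≤ _ := setLIntegral_le_lintegral _ _

/-- the Schur formula -/
theorem schur (Λ : Finset (Site d)) {z : ℂ} (hz : 0 < z.im) (V : Site d → ℝ) (x : Λ) :
    ∃ a : ℂ, 0 < a.im ∧ ∀ v : ℝ,
      KB Λ z (Function.update V (x : Site d) v) x x = ((v : ℂ) - a)⁻¹ := by
  have hf := fam_KB Λ hz
  set V' := Function.update V (x : Site d) 0 with hV'
  have hk := hf.ker V'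
  have hupd : ∀ v : ℝ, KB Λ z (Function.update V (x : Site d) v) = upk x (v : ℂ) (KB Λ z V') := by
    intro v
    have e := hf.upd V' x v
    rw [hV', Function.update_idem, Function.update_self, Complex.ofReal_zero, sub_zero] at e
    exact e
  set K := KB Λ z V' with hK
  have hne := hk.ne_zero x
  have him := hk.im_pos x
  refine ⟨-1 / K x x, ?_, fun v => ?_⟩
  · rw [neg_div, Complex.neg_im, one_div, Complex.inv_im, neg_div, neg_neg]
    have := Complex.normSq_pos.2 hne
    positivity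
  · rw [hupd v]
    have hD := hk.den_ne (w := (v : ℂ)) (by simp) x
    rw [upk_eq hD]
    have e2 : (v : ℂ) - -1 / K x x = (1 + v * K x x) / K x x := by
      field_simp
      ring
    rw [e2, inv_div]
    congr 1
    ring

theorem gl_tail (σ : ℝ) : gl σ {v | 4 * |σ| < |v|} ≤ ENNReal.ofReal (1 / 4) := by
  unfold gl
  have hms : MeasurableSet {v : ℝ | 4 * |σ| < |v|} :=
    measurableSet_lt measurable_const measurable_id.abs
  rw [Measure.map_apply (by fun_prop) hms]
  have h1 : (fun t : ℝ => σ * t) ⁻¹' {v | 4 * |σ| < |v|} ⊆ {s | (4 : ℝ) < |s|} := by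
    intro t ht
    simp only [Set.mem_preimage, Set.mem_ofPred_eq] at ht ⊢
    rw [abs_mul] at ht
    by_contra hcon
    push Not at hcon
    have := mul_le_mul_of_nonneg_left hcon (abs_nonneg σ)
    linarith
  refine (measure_mono h1).trans ((Pool.Agent.Loc.gauss_tail (by norm_num)).trans ?_)
  apply ENNReal.ofReal_le_ofReal
  have h2 : Real.exp (-(4 : ℝ) ^ 2 / 2) = (Real.exp 8)⁻¹ := by
    rw [← Real.exp_neg]; norm_num
  rw [h2]
  have h3 : (9 : ℝ) ≤ Real.exp 8 := by
    have := Real.add_one_le_exp (8 : ℝ)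
    linarith
  have h4 : (Real.exp 8)⁻¹ ≤ 9⁻¹ := inv_anti₀ (by norm_num) h3
  linarith

/-- AVF -/
theorem avf : AvfStmt := by
  classical
  intro d σ K _ hσ
  set M : ℝ := 32 * (d : ℝ) ^ 2 + 5 + |K| with hM
  have hM0 : 0 < M := by positivity
  have hν := bddDens_gl hσ
  set C : ℝ := (Clow d (gl σ) (1 / |σ|) M).toReal with hC
  have hCt : Clow d (gl σ) (1 / |σ|) M = ENNReal.ofReal C :=
    (ENNReal.ofReal_toReal (Clow_gl (d := d) σ (1 / |σ|) hM0.ne')).symm
  have hC0 : 0 ≤ C := ENNReal.toReal_nonneg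
  set c₁ : ℝ := (1 / (4 * (C + 1))) ^ 4 with hc₁
  have hc₁0 : 0 < c₁ := by positivity
  set M₂ : ℝ := 1 / c₁ + 4 * |σ| with hM₂
  refine ⟨rmin σ (2 * M₂) * (1 / 2), mul_pos (rmin_pos hσ _) (by norm_num), ?_⟩
  intro n η E _ hE hη hη1
  set Λ : Finset (Site d) := box (0 : Site d) n with hΛ
  set z : ℂ := zz η E with hz
  have hzi : 0 < z.im := by rw [hz, zz_im]; exact hη
  have hzM : ‖z‖ ≤ M := by
    rw [hz]
    unfold zz
    refine (norm_add_le _ _).trans ?_
    rw [norm_mul, Complex.norm_I, mul_one, Complex.norm_real, Complex.norm_real,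
      Real.norm_eq_abs, Real.norm_of_nonneg hη.le]
    have h1 := le_abs_self K
    have h2 : 0 ≤ 32 * (d : ℝ) ^ 2 := by positivity
    linarith
  have h0 : (0 : Site d) ∈ Λ := by
    rw [hΛ, mem_box, sd_self]
    exact Nat.zero_le _
  set x : Λ := ⟨0, h0⟩ with hx
  have hKB : ∀ V : Site d → ℝ, -(gz V Λ z 0 0).im = (KB Λ z V x x).im := by
    intro V
    rw [KB_eq_gz, Complex.neg_im]
  simp only [hKB]
  -- the good event
  set Gd : Set (Site d → ℝ) := {V | |V 0| ≤ 4 * |σ| ∧ c₁ ≤ ‖KB Λ z V x x‖} with hGd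
  have hmK := measurable_KB Λ z x x
  have hmG : MeasurableSet Gd := by
    apply MeasurableSet.inter
    · exact measurableSet_le (measurable_pi_apply 0).abs measurable_const
    · exact measurableSet_le measurable_const hmK.norm
  have hbad1 : PP d (gl σ) {V | 4 * |σ| < |V 0|} ≤ ENNReal.ofReal (1 / 4) := by
    refine le_trans (le_of_eq ?_) (gl_tail σ)
    have hmp := measurePreserving_eval_infinitePi (fun _ : Site d => gl σ) (0 : Site d)
    have hms : MeasurableSet {s : ℝ | 4 * |σ| < |s|} :=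
      measurableSet_lt measurable_const measurable_id.abs
    rw [← hmp.measure_preimage hms.nullMeasurableSet]
    rfl
  have hbad2 : PP d (gl σ) {V | ‖KB Λ z V x x‖ < c₁} ≤ ENNReal.ofReal (1 / 4) := by
    obtain ⟨S, _, hS⟩ := low_marg hν (M := M) (by rw [hM]; have := abs_nonneg K; linarith) Λ hzi
      hzM (x := x) (y := x) (Or.inl rfl)
    have hmf : Measurable fun V : Site d → ℝ => (en (KB Λ z V x x)) ^ (-(1 / 4) : ℝ) :=
      (hmK.norm.ennreal_ofReal).pow_const _
    have h1 := PP_le_of_marg S hmf hS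
    rw [hCt] at h1
    have hsub : {V : Site d → ℝ | ‖KB Λ z V x x‖ < c₁} ⊆
        {V | (ENNReal.ofReal c₁) ^ (-(1 / 4) : ℝ) ≤ (en (KB Λ z V x x)) ^ (-(1 / 4) : ℝ)} := by
      intro V hV
      rw [Set.mem_ofPred_eq] at hV ⊢
      rw [ENNReal.rpow_neg, ENNReal.rpow_neg]
      apply ENNReal.inv_le_inv.2
      apply ENNReal.rpow_le_rpow _ (by norm_num)
      exact ENNReal.ofReal_le_ofReal hV.le
    have h2 : (ENNReal.ofReal c₁) ^ (-(1 / 4) : ℝ) = ENNReal.ofReal (4 * (C + 1)) := by
      rw [ENNReal.ofReal_rpow_of_pos hc₁0]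
      congr 1
      rw [hc₁, ← Real.rpow_natCast, ← Real.rpow_mul (by positivity)]
      norm_num
      rw [Real.rpow_neg_one]
      field_simp
    refine (measure_mono hsub).trans ?_
    have h3 := mul_meas_ge_le_lintegral₀ (μ := PP d (gl σ)) hmf.aemeasurable
      ((ENNReal.ofReal c₁) ^ (-(1 / 4) : ℝ))
    have h4 := h3.trans h1
    rw [h2] at h4 ⊢
    have h5 : (ENNReal.ofReal (4 * (C + 1))) ≠ 0 := by
      rw [Ne, ENNReal.ofReal_eq_zero, not_le]
      positivity
    have h6 := (ENNReal.le_div_iff_mul_le (Or.inl h5) (Or.inl ENNReal.ofReal_ne_top)).2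
      ((mul_comm _ _).trans_le h4)
    refine h6.trans ?_
    rw [← ENNReal.ofReal_div_of_pos (by positivity)]
    apply ENNReal.ofReal_le_ofReal
    rw [div_le_div_iff₀ (by positivity) (by norm_num)]
    linarith
  have hgood : ENNReal.ofReal (1 / 2) ≤ PP d (gl σ) Gd := by
    have hc : Gdᶜ ⊆ {V : Site d → ℝ | 4 * |σ| < |V 0|} ∪ {V | ‖KB Λ z V x x‖ < c₁} := by
      intro V hV
      by_contra hcon
      apply hV
      simp only [Set.mem_union, Set.mem_ofPred_eq, not_or, not_lt] at hcon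
      exact hcon
    have h1 : PP d (gl σ) Gdᶜ ≤ ENNReal.ofReal (1 / 2) := by
      refine (measure_mono hc).trans ((measure_union_le _ _).trans ?_)
      refine (add_le_add hbad1 hbad2).trans (le_of_eq ?_)
      rw [← ENNReal.ofReal_add (by norm_num) (by norm_num)]
      norm_num
    have h2 := prob_add_prob_compl (μ := PP d (gl σ)) hmG
    have h3 : (1 : ℝ≥0∞) ≤ PP d (gl σ) Gd + ENNReal.ofReal (1 / 2) := by
      rw [← h2]
      gcongr
    have h4 : ENNReal.ofReal (1 / 2) + ENNReal.ofReal (1 / 2) ≤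
        PP d (gl σ) Gd + ENNReal.ofReal (1 / 2) := by
      rw [← ENNReal.ofReal_add (by norm_num) (by norm_num)]
      norm_num
      norm_num at h3
      exact h3
    exact (ENNReal.add_le_add_iff_right ENNReal.ofReal_ne_top).1 h4
  -- resampling
  have hmF : Measurable fun V : Site d → ℝ => ENNReal.ofReal (KB Λ z V x x).im :=
    (Complex.measurable_im.comp hmK).ennreal_ofReal
  have hres : MeasurePreserving (fun p : (Site d → ℝ) × ℝ => Function.update p.1 (0 : Site d) p.2)
      ((PP d (gl σ)).prod (gl σ)) (PP d (gl σ)) := resamp_PP (gl σ)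
  calc ENNReal.ofReal (rmin σ (2 * M₂) * (1 / 2))
      = ENNReal.ofReal (rmin σ (2 * M₂)) * ENNReal.ofReal (1 / 2) :=
        ENNReal.ofReal_mul (rmin_pos hσ _).le
    _ ≤ ENNReal.ofReal (rmin σ (2 * M₂)) * PP d (gl σ) Gd := by gcongr
    _ = ∫⁻ V in Gd, ENNReal.ofReal (rmin σ (2 * M₂)) ∂(PP d (gl σ)) := by
        rw [setLIntegral_const]
    _ ≤ ∫⁻ V in Gd, ∫⁻ v : ℝ, ENNReal.ofReal
          (KB Λ z (Function.update V (0 : Site d) v) x x).im ∂(gl σ) ∂(PP d (gl σ)) := by
        refine setLIntegral_mono' hmG fun V hV => ?_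
        obtain ⟨a, ha, hav⟩ := schur Λ hzi V x
        have haM : ‖a‖ ≤ M₂ := by
          have h1 := hav (V 0)
          have e : Function.update V ((x : Λ) : Site d) (V 0) = V := Function.update_eq_self _ V
          rw [e] at h1
          have h2 : ‖(V 0 : ℂ) - a‖ ≤ 1 / c₁ := by
            have h3 := hV.2
            rw [h1, norm_inv] at h3
            rw [one_div]
            have h4 : 0 < ‖(V 0 : ℂ) - a‖ := by
              by_contra hcon
              have h5 : ‖(V 0 : ℂ) - a‖ = 0 := le_antisymm (not_lt.1 hcon) (norm_nonneg _)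
              rw [h5, inv_zero] at h3
              linarith
            rw [← inv_inv (‖(V 0 : ℂ) - a‖)]
            exact inv_anti₀ hc₁0 h3
          have h3 : ‖a‖ ≤ ‖(V 0 : ℂ) - a‖ + ‖(V 0 : ℂ)‖ := by
            have := norm_sub_le ((V 0 : ℂ)) ((V 0 : ℂ) - a)
            rw [sub_sub_cancel] at this
            linarith
          have h4 : ‖(V 0 : ℂ)‖ ≤ 4 * |σ| := by
            rw [Complex.norm_real, Real.norm_eq_abs]
            exact hV.1
          rw [hM₂]
          linarith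
        refine (one_site hσ ha haM).trans (le_of_eq ?_)
        refine lintegral_congr fun v => ?_
        rw [← hav v]
    _ ≤ ∫⁻ V, ∫⁻ v : ℝ, ENNReal.ofReal
          (KB Λ z (Function.update V (0 : Site d) v) x x).im ∂(gl σ) ∂(PP d (gl σ)) :=
        setLIntegral_le_lintegral _ _
    _ = ∫⁻ p : (Site d → ℝ) × ℝ, ENNReal.ofReal
          (KB Λ z (Function.update p.1 (0 : Site d) p.2) x x).im ∂((PP d (gl σ)).prod (gl σ)) := by
        exact (lintegral_prod (fun p : (Site d → ℝ) × ℝ => ENNReal.ofReal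
          (KB Λ z (Function.update p.1 (0 : Site d) p.2) x x).im)
          (hmF.comp hres.measurable).aemeasurable).symm
    _ = ∫⁻ V, ENNReal.ofReal (KB Λ z V x x).im ∂(PP d (gl σ)) :=
        hres.lintegral_comp hmF


end Pool.Agent.LE.CH.H90
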